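import Mathlib

set_option autoImplicit false

/-!
# Unique equality continuation instances of the Post correspondence problem

Definitions, and the instances that simulate deterministic and non-deterministic systems of rules
`u i w → w v i`.
-/

namespace Pool.Agent.X238.Uec

/-- Two words are comparable if one of them is a prefix of the other. -/
def Comparable {B : Type} (u v : List B) : Prop := u <+: v ∨ v <+: u

/-- The monoid morphism determined by the images of the letters. -/
def ext {A B : Type} (h : A → List B) (u : List A) : List B := u.flatMap h

/-- The instance `(h, g)` is a unique equality continuation instance. -/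
def UECg {A B : Type} (h g : A → List B) : Prop :=
  ∀ (u : List A) (a b : A), a ≠ b →
    Comparable (ext h (u ++ [a])) (ext g (u ++ [a])) →
    Comparable (ext h (u ++ [b])) (ext g (u ++ [b])) → ext h u = ext g u

/-- An instance given by the finite list of the pairs `(h c, g c)`, where `c` runs through the
letters of the alphabet `Fin L.length`; the letters of the other alphabet are natural numbers. -/
def UEC (L : List (List ℕ × List ℕ)) : Prop :=
  UECg (fun c : Fin L.length => (L.get c).1) (fun c : Fin L.length => (L.get c).2)

theorem Comparable.of_append {B : Type} {p q r s : List B} (h : Comparable (p ++ q) (r ++ s)) :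
    Comparable p r := by
  rcases h with h | h
  · exact List.prefix_or_prefix_of_prefix ((List.prefix_append p q).trans h)
      (List.prefix_append r s)
  · exact List.prefix_or_prefix_of_prefix (List.prefix_append p q)
      ((List.prefix_append r s).trans h)

theorem Comparable.cancel {B : Type} {p q r : List B} (h : Comparable (p ++ q) (p ++ r)) :
    Comparable q r := by
  rcases h with h | h
  · exact Or.inl ((List.prefix_append_right_inj p).1 h)
  · exact Or.inr ((List.prefix_append_right_inj p).1 h)

theorem Comparable.append_left {B : Type} (p : List B) {q r : List B} (h : Comparable q r) :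
    Comparable (p ++ q) (p ++ r) := by
  rcases h with h | h
  · exact Or.inl ((List.prefix_append_right_inj p).2 h)
  · exact Or.inr ((List.prefix_append_right_inj p).2 h)

theorem Comparable.head {B : Type} {x y : B} {q r : List B} (h : Comparable (x :: q) (y :: r)) :
    x = y := by
  rcases h with h | h
  · exact (List.cons_prefix_cons.1 h).1
  · exact (List.cons_prefix_cons.1 h).1.symm

theorem ext_append {A B : Type} (h : A → List B) (u v : List A) :
    ext h (u ++ v) = ext h u ++ ext h v := List.flatMap_append

theorem ext_single {A B : Type} (h : A → List B) (a : A) : ext h [a] = h a := by simp [ext]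

/-! ### change of the alphabet of indices -/

theorem uecg_equiv {A A' B : Type} (f : A ≃ A') (h g : A' → List B) :
    UECg (fun a => h (f a)) (fun a => g (f a)) ↔ UECg h g := by
  have e : ∀ (k : A' → List B) (u : List A), ext (fun a => k (f a)) u = ext k (u.map f) := by
    intro k u
    rw [ext, ext, List.flatMap_map]
  have e' : ∀ (k : A' → List B) (u : List A'), ext (fun a => k (f a)) (u.map f.symm) = ext k u := by
    intro k u
    rw [e, List.map_map]
    simp
  constructor
  · intro H u a b hab h1 h2
    have := H (u.map f.symm) (f.symm a) (f.symm b) (fun h => hab (f.symm.injective h))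
    rw [show (u.map f.symm ++ [f.symm a]) = (u ++ [a]).map f.symm by simp,
      show (u.map f.symm ++ [f.symm b]) = (u ++ [b]).map f.symm by simp, e', e', e', e', e', e'] at this
    exact this h1 h2
  · intro H u a b hab h1 h2
    rw [e, e, List.map_append] at h1 h2
    rw [e, e]
    exact H (u.map f) (f a) (f b) (fun h => hab (f.injective h)) h1 h2

theorem uec_ofFn {n : ℕ} (F : Fin n → List ℕ × List ℕ) :
    UEC (List.ofFn F) ↔ UECg (fun i => (F i).1) (fun i => (F i).2) := by
  have hl : (List.ofFn F).length = n := List.length_ofFn
  have := uecg_equiv (finCongr hl) (fun i => (F i).1) (fun i => (F i).2)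
  rw [← this, UEC]
  have e : ∀ c : Fin (List.ofFn F).length, (List.ofFn F).get c = F (finCongr hl c) := by
    intro c
    rw [List.get_ofFn]
    rfl
  simp only [e]

theorem uec_cons {A : Type} {n : ℕ} (σ : Fin n ≃ A) (h g : Option A → List ℕ) :
    UEC ((h none, g none) :: List.ofFn (fun i => (h (some (σ i)), g (some (σ i))))) ↔ UECg h g := by
  have e1 : ((h none, g none) :: List.ofFn (fun i => (h (some (σ i)), g (some (σ i))))) =
      List.ofFn (fun i : Fin (n + 1) => (h ((finSuccEquiv n i).map σ), g ((finSuccEquiv n i).map σ))) := by
    rw [List.ofFn_succ]
    simp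
  rw [e1, uec_ofFn]
  exact uecg_equiv ((finSuccEquiv n).trans (Equiv.optionCongr σ)) h g

/-! ### the instances -/

variable {X A : Type}

/-- The words reachable from `w0` by the rules `u i w → w v i`. -/
inductive Reach (u v : A → List X) (w0 : List X) : List X → Prop
  | start : Reach u v w0 w0
  | step (i : A) (w : List X) : Reach u v w0 (u i ++ w) → Reach u v w0 (w ++ v i)

/-- every letter is preceded by `0` -/
def hE (e : X → ℕ) (w : List X) : List ℕ := w.flatMap fun x => [0, e x + 2]

/-- every letter is followed by `0` -/
def gE (e : X → ℕ) (w : List X) : List ℕ := w.flatMap fun x => [e x + 2, 0]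

/-- the first morphism -/
def hh (e : X → ℕ) (v : A → List X) (w0 : List X) : Option A → List ℕ
  | none => 1 :: hE e w0
  | some i => hE e (v i)

/-- the second morphism -/
def gg (e : X → ℕ) (u : A → List X) : Option A → List ℕ
  | none => [1, 0]
  | some i => gE e (u i)

section
variable (e : X → ℕ)

theorem hE_append (w w' : List X) : hE e (w ++ w') = hE e w ++ hE e w' := List.flatMap_append

theorem hE_cons (x : X) (w : List X) : hE e (x :: w) = 0 :: (e x + 2) :: hE e w := by simp [hE]

theorem gE_cons (x : X) (w : List X) : gE e (x :: w) = (e x + 2) :: 0 :: gE e w := by simp [gE]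

theorem gE_append (w w' : List X) : gE e (w ++ w') = gE e w ++ gE e w' := List.flatMap_append

theorem zero_gE (w : List X) : 0 :: gE e w = hE e w ++ [0] := by
  induction w with
  | nil => rfl
  | cons x w ih => rw [gE_cons, hE_cons, ih]; rfl

theorem hE_length (w : List X) : (hE e w).length = 2 * w.length := by
  induction w with
  | nil => rfl
  | cons x w ih => rw [hE_cons, List.length_cons, List.length_cons, ih, List.length_cons]; omega

variable (u v : A → List X) (w0 : List X)

theorem ext_hh (is : List A) :
    ext (hh e v w0) (none :: is.map some) = 1 :: hE e (w0 ++ is.flatMap v) := by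
  have h : ext (hh e v w0) (is.map some) = hE e (is.flatMap v) := by
    induction is with
    | nil => rfl
    | cons i is ih =>
      rw [List.map_cons, List.flatMap_cons, hE_append, ← ih]
      rfl
  show hh e v w0 none ++ ext (hh e v w0) (is.map some) = _
  rw [h, hE_append]
  rfl

theorem ext_gg (is : List A) :
    ext (gg e u) (none :: is.map some) = 1 :: (hE e (is.flatMap u) ++ [0]) := by
  have h : ext (gg e u) (is.map some) = gE e (is.flatMap u) := by
    induction is with
    | nil => rfl
    | cons i is ih =>
      rw [List.map_cons, List.flatMap_cons, gE_append, ← ih]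
      rfl
  show gg e u none ++ ext (gg e u) (is.map some) = _
  rw [h, ← zero_gE]
  rfl

variable {e}

theorem comparable_of (he : Function.Injective e) : ∀ V U : List X,
    Comparable (hE e V) (hE e U ++ [0]) → Comparable V U := by
  intro V
  induction V with
  | nil => intro U _; exact Or.inl (List.nil_prefix)
  | cons x V ih =>
    intro U h
    cases U with
    | nil => exact Or.inr (List.nil_prefix)
    | cons y U =>
      rw [hE_cons, hE_cons] at h
      have h1 : Comparable ((e x + 2) :: hE e V) ((e y + 2) :: (hE e U ++ [0])) :=
        Comparable.cancel (p := [0]) h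
      have hxy : x = y := he (by have := h1.head; omega)
      subst hxy
      have h2 := ih U (Comparable.cancel (p := [e x + 2]) h1)
      exact h2.append_left [x]

theorem comparable_to (V U : List X) (h : Comparable V U) :
    Comparable (hE e V) (hE e U ++ [0]) := by
  rcases h with ⟨t, rfl⟩ | ⟨t, rfl⟩
  · rw [hE_append, List.append_assoc]
    exact Or.inl (List.prefix_append _ _)
  · cases t with
    | nil =>
      rw [List.append_nil]
      exact Or.inl (List.prefix_append _ _)
    | cons x t =>
      rw [hE_append, hE_cons]
      exact Or.inr ((List.prefix_append_right_inj _).2 (by simp))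

variable {u v w0}

/-- the continuing letters -/
theorem cont (he : Function.Injective e) (hu2 : ∀ i, (u i).length ≤ 2)
    (hv : ∀ i, v i ≠ []) (is : List A) (w : List X) (hw : 2 ≤ w.length)
    (hVU : w0 ++ is.flatMap v = is.flatMap u ++ w) (a : Option A) :
    Comparable (ext (hh e v w0) ((none :: is.map some) ++ [a]))
      (ext (gg e u) ((none :: is.map some) ++ [a])) ↔ ∃ i, a = some i ∧ u i <+: w := by
  constructor
  · intro h
    cases a with
    | none =>
      exfalso
      rw [ext_append, ext_append, ext_hh, ext_gg, ext_single, ext_single, hVU, hE_append] at h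
      cases w with
      | nil => simp at hw
      | cons x w =>
        rw [hE_cons] at h
        have h1 : Comparable (((1 :: hE e (is.flatMap u)) ++ [0]) ++ ((e x + 2) :: (hE e w ++ hh e v w0 none)))
            (((1 :: hE e (is.flatMap u)) ++ [0]) ++ [1, 0]) := by
          simpa [gg] using h
        have := h1.cancel.head
        omega
    | some i =>
      refine ⟨i, rfl, ?_⟩
      have e1 : (none :: is.map some) ++ [some i] = none :: (is ++ [i]).map some := by simp
      rw [e1, ext_hh, ext_gg] at h
      have h1 := comparable_of he _ _ (Comparable.cancel (p := [1]) h)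
      rw [List.flatMap_append, List.flatMap_append, ← List.append_assoc, hVU, List.append_assoc] at h1
      have h2 := h1.cancel
      have ev : List.flatMap v [i] = v i := by simp
      have eu : List.flatMap u [i] = u i := by simp
      rw [ev, eu] at h2
      have hvl : 1 ≤ (v i).length := List.length_pos_iff.2 (hv i)
      rcases h2 with h2 | h2
      · have h3 := h2.length_le
        have h4 := hu2 i
        rw [List.length_append] at h3
        omega
      · exact List.prefix_of_prefix_length_le h2 (List.prefix_append _ _) (by
          have := hu2 i
          omega)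
  · rintro ⟨i, rfl, ⟨t, rfl⟩⟩
    have e1 : (none :: is.map some) ++ [some i] = none :: (is ++ [i]).map some := by simp
    rw [e1, ext_hh, ext_gg]
    refine Comparable.append_left [1] (comparable_to _ _ ?_)
    rw [List.flatMap_append, List.flatMap_append, ← List.append_assoc, hVU, List.append_assoc]
    have ev : List.flatMap v [i] = v i := by simp
    have eu : List.flatMap u [i] = u i := by simp
    rw [ev, eu]
    refine Comparable.append_left _ (Or.inr ?_)
    rw [List.append_assoc]
    exact List.prefix_append _ _

/-- the comparable words -/
theorem shape (he : Function.Injective e) (hu0 : ∀ i, u i ≠ []) (hu2 : ∀ i, (u i).length ≤ 2)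
    (hv : ∀ i, v i ≠ []) (hR : ∀ w, Reach u v w0 w → 2 ≤ w.length) (x : List (Option A))
    (h : Comparable (ext (hh e v w0) x) (ext (gg e u) x)) :
    x = [] ∨ ∃ (is : List A) (w : List X), x = none :: is.map some ∧ Reach u v w0 w ∧
      w0 ++ is.flatMap v = is.flatMap u ++ w := by
  induction x using List.reverseRecOn with
  | nil => exact Or.inl rfl
  | append_singleton x a ih =>
    right
    have h' := h
    rw [ext_append, ext_append] at h'
    rcases ih h'.of_append with rfl | ⟨is, w, rfl, hw, hVU⟩
    · cases a with
      | none => exact ⟨[], w0, rfl, .start, by simp⟩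
      | some i =>
        exfalso
        rw [List.nil_append, ext_single, ext_single] at h
        obtain ⟨y, t, hy⟩ := List.exists_cons_of_ne_nil (hv i)
        obtain ⟨z, s, hz⟩ := List.exists_cons_of_ne_nil (hu0 i)
        rw [hh, gg, hy, hz, hE_cons, gE_cons] at h
        have := h.head
        omega
    · obtain ⟨i, rfl, ⟨t, rfl⟩⟩ := (cont he hu2 hv is w (hR w hw) hVU a).1 h
      refine ⟨is ++ [i], t ++ v i, by simp, .step i t hw, ?_⟩
      rw [List.flatMap_append, List.flatMap_append, ← List.append_assoc, hVU]
      simp

theorem reach_word {w : List X} (h : Reach u v w0 w) :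
    ∃ is : List A, w0 ++ is.flatMap v = is.flatMap u ++ w := by
  induction h with
  | start => exact ⟨[], by simp⟩
  | step i w _ ih =>
    obtain ⟨is, h⟩ := ih
    refine ⟨is ++ [i], ?_⟩
    rw [List.flatMap_append, List.flatMap_append, ← List.append_assoc, h]
    simp

/-- The instance is a unique equality continuation instance if and only if the system of rules is
deterministic on the reachable words. -/
theorem uecg_iff (he : Function.Injective e) (hu0 : ∀ i, u i ≠ []) (hu2 : ∀ i, (u i).length ≤ 2)
    (hv : ∀ i, v i ≠ []) (hR : ∀ w, Reach u v w0 w → 2 ≤ w.length) :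
    UECg (hh e v w0) (gg e u) ↔
      ∀ w, Reach u v w0 w → ∀ i j, u i <+: w → u j <+: w → i = j := by
  constructor
  · intro H w hw i j hi hj
    by_contra hij
    obtain ⟨is, hVU⟩ := reach_word hw
    have h2 := hR w hw
    have := H (none :: is.map some) (some i) (some j) (fun h => hij (Option.some.inj h))
      ((cont he hu2 hv is w h2 hVU _).2 ⟨i, rfl, hi⟩) ((cont he hu2 hv is w h2 hVU _).2 ⟨j, rfl, hj⟩)
    rw [ext_hh, ext_gg, hVU] at this
    have := congrArg List.length this
    simp only [List.length_cons, List.length_append, hE_length, List.length_nil] at this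
    omega
  · intro H x a b hab h1 h2
    have h1' := h1
    rw [ext_append, ext_append] at h1'
    rcases shape he hu0 hu2 hv hR x h1'.of_append with rfl | ⟨is, w, rfl, hw, hVU⟩
    · rfl
    · exfalso
      obtain ⟨i, rfl, hi⟩ := (cont he hu2 hv is w (hR w hw) hVU a).1 h1
      obtain ⟨j, rfl, hj⟩ := (cont he hu2 hv is w (hR w hw) hVU b).1 h2
      exact hab (by rw [H w hw i j hi hj])

end

end Pool.Agent.X238.Uec
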