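import Pool.Agent.X238.Uec.Basic
import Pool.Agent.Y669.TA.SysU

set_option autoImplicit false

/-!
# A system of rules that simulates a two-counter machine

The queue automaton `qstep` simulates the counter machine, and the system of rules simulates the
queue automaton by rotating its configurations.
-/

namespace Pool.Agent.X238.Uec

open Pool.Agent.Helper599.Core Pool.Agent.Helper599.Source

/-- the symbols of the queue: `c j` is a unit of the counter `j`, `m` separates the counters, `z`
marks the end -/
inductive Gm : Type
  | c (j : Bool)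
  | m
  | z

theorem gm_finite : Finite Gm := by
  refine Finite.of_injective (fun g : Gm => match g with
    | .c j => some (some j) | .m => some none | .z => (none : Option (Option Bool))) ?_
  intro a b h
  cases a <;> cases b <;> simp_all

/-- the states of the queue automaton: reading, writing, halted -/
abbrev St (Q : Type) (B : ℕ) : Type := (Q × (Bool → Fin B)) ⊕ (Q × (Bool → Fin B) × Fin B) ⊕ Unit

variable {Q : Type} (M : Sys Q Bool)

/-- residue -/
def md (n : ℕ) : Fin M.B := ⟨n % M.B, Nat.mod_lt _ M.hB⟩

/-- successor of a residue -/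
def inc (i : Fin M.B) : Fin M.B := md M ((i : ℕ) + 1)

theorem inc_md (n : ℕ) : inc M (md M n) = md M (n + 1) := by
  unfold inc md
  simp only [Fin.mk.injEq]
  rw [Nat.mod_add_mod]

/-- the halted state -/
abbrev hlt : St Q M.B := .inr (.inr ())

/-- transitions: the appended word and the new state -/
def dl : St Q M.B → Gm → List Gm × St Q M.B
  | .inl (q, r), .c j => ([.c j], .inl (q, Function.update r j (inc M (r j))))
  | .inl (q, r), .m => ([.m], .inl (q, r))
  | .inl (q, r), .z => ([.z], .inr (.inl (q, r, md M 0)))
  | .inr (.inl (q, r, k)), .c j =>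
      (if (inc M k : ℕ) = 0 then List.replicate (M.a q r j) (.c j) else [],
        .inr (.inl (q, r, inc M k)))
  | .inr (.inl (q, r, _)), .m =>
      (List.replicate (M.b q r false) (.c false) ++ [.m], .inr (.inl (q, r, md M 0)))
  | .inr (.inl (q, r, _)), .z =>
      (List.replicate (M.b q r true) (.c true) ++ [.z],
        match M.nxt q r with
        | some q' => .inl (q', fun _ => md M 0)
        | none => hlt M)
  | .inr (.inr ()), x => ([x], hlt M)

/-- a step of the queue automaton -/
def qstep : St Q M.B × List Gm → St Q M.B × List Gm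
  | (s, []) => (s, [])
  | (s, x :: t) => ((dl M s x).2, t ++ (dl M s x).1)

/-- the queue for the counters `n` -/
def tape (n : Bool → ℕ) : List Gm :=
  List.replicate (n false) (.c false) ++ .m :: (List.replicate (n true) (.c true) ++ [.z])

/-- the configurations that correspond to those of the counter machine -/
def cfg : Option Q → (Bool → ℕ) → St Q M.B × List Gm
  | some q, n => (.inl (q, fun _ => md M 0), tape n)
  | none, n => (hlt M, tape n)

/-- `c'` is reached from `c` and all the configurations before it are not halted -/
def MR (c c' : St Q M.B × List Gm) : Prop :=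
  ∃ j, (qstep M)^[j] c = c' ∧ ∀ i < j, ((qstep M)^[i] c).1 ≠ hlt M

theorem MR.refl (c : St Q M.B × List Gm) : MR M c c := ⟨0, rfl, fun i hi => absurd hi (by omega)⟩

theorem MR.trans {c c' c'' : St Q M.B × List Gm} (h : MR M c c') (h' : MR M c' c'') :
    MR M c c'' := by
  obtain ⟨j, h1, h2⟩ := h
  obtain ⟨k, h3, h4⟩ := h'
  refine ⟨k + j, by rw [Function.iterate_add_apply, h1, h3], fun i hi => ?_⟩
  by_cases hij : i < j
  · exact h2 i hij
  · obtain ⟨l, rfl⟩ : ∃ l, i = l + j := ⟨i - j, by omega⟩
    rw [Function.iterate_add_apply, h1]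
    exact h4 l (by omega)

theorem MR.single {c : St Q M.B × List Gm} (h : c.1 ≠ hlt M) : MR M c (qstep M c) :=
  ⟨1, rfl, fun i hi => by
    have : i = 0 := by omega
    subst this
    exact h⟩

theorem read_phase (q : Q) (j : Bool) : ∀ (n c : ℕ) (r : Bool → Fin M.B) (t : List Gm),
    r j = md M c → MR M (.inl (q, r), List.replicate n (.c j) ++ t)
      (.inl (q, Function.update r j (md M (c + n))), t ++ List.replicate n (.c j)) := by
  intro n
  induction n with
  | zero =>
    intro c r t h
    have : Function.update r j (md M (c + 0)) = r := by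
      rw [Nat.add_zero, ← h, Function.update_eq_self]
    rw [this]
    simp only [List.replicate_zero, List.nil_append, List.append_nil]
    exact MR.refl M _
  | succ n ih =>
    intro c r t h
    have h1 : MR M (.inl (q, r), List.replicate (n + 1) (.c j) ++ t)
        (.inl (q, Function.update r j (md M (c + 1))), List.replicate n (.c j) ++ (t ++ [.c j])) := by
      have := MR.single M (c := (.inl (q, r), List.replicate (n + 1) (.c j) ++ t)) (by simp)
      rw [List.replicate_succ, List.cons_append] at this ⊢
      simp only [qstep, dl] at this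
      rw [h, inc_md, List.append_assoc] at this
      exact this
    refine h1.trans M ?_
    have h2 := ih (c + 1) (Function.update r j (md M (c + 1))) (t ++ [.c j])
      (Function.update_self _ _ _)
    rw [Function.update_idem] at h2
    have e : (t ++ [Gm.c j]) ++ List.replicate n (.c j) = t ++ List.replicate (n + 1) (.c j) := by
      rw [List.replicate_succ, List.append_assoc]; rfl
    rw [e, show c + 1 + n = c + (n + 1) by ring] at h2
    exact h2

theorem write_phase (q : Q) (r : Bool → Fin M.B) (j : Bool) : ∀ (n c : ℕ) (t : List Gm),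
    MR M (.inr (.inl (q, r, md M c)), List.replicate n (.c j) ++
        (t ++ List.replicate (M.a q r j * (c / M.B)) (.c j)))
      (.inr (.inl (q, r, md M (c + n))), t ++
        List.replicate (M.a q r j * ((c + n) / M.B)) (.c j)) := by
  intro n
  induction n with
  | zero =>
    intro c t
    simp only [List.replicate_zero, List.nil_append, Nat.add_zero]
    exact MR.refl M _
  | succ n ih =>
    intro c t
    have h1 : MR M (.inr (.inl (q, r, md M c)), List.replicate (n + 1) (.c j) ++
          (t ++ List.replicate (M.a q r j * (c / M.B)) (.c j)))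
        (.inr (.inl (q, r, md M (c + 1))), List.replicate n (.c j) ++
          (t ++ List.replicate (M.a q r j * ((c + 1) / M.B)) (.c j))) := by
      have := MR.single M (c := (.inr (.inl (q, r, md M c)), List.replicate (n + 1) (.c j) ++
          (t ++ List.replicate (M.a q r j * (c / M.B)) (.c j)))) (by simp)
      rw [List.replicate_succ, List.cons_append] at this ⊢
      simp only [qstep, dl] at this
      rw [inc_md] at this
      have e : List.replicate n (Gm.c j) ++ (t ++ List.replicate (M.a q r j * (c / M.B)) (.c j)) ++
          (if ((md M (c + 1) : Fin M.B) : ℕ) = 0 then List.replicate (M.a q r j) (.c j) else []) =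
          List.replicate n (.c j) ++ (t ++ List.replicate (M.a q r j * ((c + 1) / M.B)) (.c j)) := by
        rw [Nat.succ_div]
        by_cases hd : M.B ∣ c + 1
        · have h0 : ((md M (c + 1) : Fin M.B) : ℕ) = 0 := Nat.mod_eq_zero_of_dvd hd
          rw [if_pos h0, if_pos hd, List.append_assoc, List.append_assoc,
            List.replicate_append_replicate, mul_add, mul_one]
        · have h0 : ¬ ((md M (c + 1) : Fin M.B) : ℕ) = 0 := fun h => hd (Nat.dvd_of_mod_eq_zero h)
          rw [if_neg h0, if_neg hd, List.append_nil, Nat.add_zero]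
      rw [e] at this
      exact this
    refine h1.trans M ?_
    have h2 := ih (c + 1) t
    rw [show c + 1 + n = c + (n + 1) by ring] at h2
    exact h2

theorem write_phase' (q : Q) (r : Bool → Fin M.B) (j : Bool) (n : ℕ) (t : List Gm) :
    MR M (.inr (.inl (q, r, md M 0)), List.replicate n (.c j) ++ t)
      (.inr (.inl (q, r, md M n)), t ++ List.replicate (M.a q r j * (n / M.B)) (.c j)) := by
  have := write_phase M q r j n 0 t
  simpa using this

/-- a step of the counter machine takes at least one step of the queue automaton -/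
theorem macro_step (q : Q) (n : Bool → ℕ) :
    MR M (qstep M (cfg M (some q) n)) (cfg M (M.nxt q (M.res n)) (M.nn q n)) ∨
      ∃ c, MR M (cfg M (some q) n) c ∧ c.1 ≠ hlt M ∧
        qstep M c = cfg M (M.nxt q (M.res n)) (M.nn q n) := by
  right
  have s1 := read_phase M q false (n false) 0 (fun _ => md M 0)
    (.m :: (List.replicate (n true) (.c true) ++ [.z])) rfl
  set r1 : Bool → Fin M.B := Function.update (fun _ => md M 0) false (md M (0 + n false)) with hr1
  have s2 : MR M (.inl (q, r1), (.m :: (List.replicate (n true) (.c true) ++ [.z])) ++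
        List.replicate (n false) (.c false))
      (.inl (q, r1), List.replicate (n true) (.c true) ++ ([.z] ++
        List.replicate (n false) (.c false) ++ [.m])) := by
    have := MR.single M (c := (.inl (q, r1), (.m :: (List.replicate (n true) (.c true) ++ [.z])) ++
        List.replicate (n false) (.c false))) (by simp)
    rw [List.cons_append] at this
    simp only [qstep, dl] at this
    rw [List.cons_append]
    simpa using this
  have s3 := read_phase M q true (n true) 0 r1
    ([.z] ++ List.replicate (n false) (.c false) ++ [.m]) (by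
      rw [hr1, Function.update_of_ne (by decide)])
  have hr : Function.update r1 true (md M (0 + n true)) = M.res n := by
    funext b
    cases b
    · rw [Function.update_of_ne (by decide), hr1, Function.update_self, Nat.zero_add]; rfl
    · rw [Function.update_self, Nat.zero_add]; rfl
  rw [hr] at s3
  set r := M.res n with hrdef
  have s4 : MR M (.inl (q, r), ([.z] ++ List.replicate (n false) (.c false) ++ [.m]) ++
        List.replicate (n true) (.c true))
      (.inr (.inl (q, r, md M 0)), List.replicate (n false) (.c false) ++ ([.m] ++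
        List.replicate (n true) (.c true) ++ [.z])) := by
    have := MR.single M (c := (.inl (q, r), ([.z] ++ List.replicate (n false) (.c false) ++ [.m]) ++
        List.replicate (n true) (.c true))) (by simp)
    simp only [List.cons_append, List.nil_append, qstep, dl] at this
    simpa using this
  have s5 := write_phase' M q r false (n false) ([.m] ++ List.replicate (n true) (.c true) ++ [.z])
  have s6 : MR M (.inr (.inl (q, r, md M (n false))), ([.m] ++ List.replicate (n true) (.c true) ++
        [.z]) ++ List.replicate (M.a q r false * (n false / M.B)) (.c false))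
      (.inr (.inl (q, r, md M 0)), List.replicate (n true) (.c true) ++ ([.z] ++
        List.replicate (M.a q r false * (n false / M.B)) (.c false) ++
        List.replicate (M.b q r false) (.c false) ++ [.m])) := by
    have := MR.single M (c := (.inr (.inl (q, r, md M (n false))), ([.m] ++
        List.replicate (n true) (.c true) ++ [.z]) ++
        List.replicate (M.a q r false * (n false / M.B)) (.c false))) (by simp)
    simp only [List.cons_append, List.nil_append, qstep, dl, List.append_assoc] at this ⊢
    exact this
  have s7 := write_phase' M q r true (n true) ([.z] ++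
        List.replicate (M.a q r false * (n false / M.B)) (.c false) ++
        List.replicate (M.b q r false) (.c false) ++ [.m])
  refine ⟨_, (s1.trans M (s2.trans M (s3.trans M (s4.trans M (s5.trans M (s6.trans M s7)))))),
    by simp, ?_⟩
  simp only [List.cons_append, List.nil_append, qstep, dl]
  have e : tape (M.nn q n) = List.replicate (M.a q r false * (n false / M.B)) (.c false) ++
        List.replicate (M.b q r false) (.c false) ++ [.m] ++
        List.replicate (M.a q r true * (n true / M.B)) (.c true) ++
        (List.replicate (M.b q r true) (.c true) ++ [.z]) := by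
    simp only [tape, Sys.nn, List.replicate_add, hrdef, List.append_assoc, List.cons_append,
      List.nil_append]
  rw [← e]
  cases hn : M.nxt q r <;> rfl

theorem halts_reaches {o : Option Q} {n : Bool → ℕ} (h : M.Halts o n) :
    ∃ k, ((qstep M)^[k] (cfg M o n)).1 = hlt M := by
  induction h with
  | stop n => exact ⟨0, rfl⟩
  | step q n _ ih =>
    obtain ⟨k, hk⟩ := ih
    rcases macro_step M q n with ⟨j, h1, -⟩ | ⟨c, ⟨j, h1, -⟩, -, h3⟩
    · refine ⟨k + (j + 1), ?_⟩
      rw [Function.iterate_add_apply, Function.iterate_succ_apply, h1]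
      exact hk
    · refine ⟨k + (1 + j), ?_⟩
      rw [Function.iterate_add_apply, Function.iterate_add_apply, h1, Function.iterate_one, h3]
      exact hk

theorem reaches_halts : ∀ (k : ℕ) (o : Option Q) (n : Bool → ℕ),
    ((qstep M)^[k] (cfg M o n)).1 = hlt M → M.Halts o n := by
  intro k
  induction k using Nat.strong_induction_on with
  | _ k ih =>
    intro o n h
    cases o with
    | none => exact .stop n
    | some q =>
      have h0 : (cfg M (some q) n).1 ≠ hlt M := by simp [cfg]
      obtain ⟨j, hj, h1, h2⟩ : ∃ j, 1 ≤ j ∧ (qstep M)^[j] (cfg M (some q) n) =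
          cfg M (M.nxt q (M.res n)) (M.nn q n) ∧
          ∀ i < j, ((qstep M)^[i] (cfg M (some q) n)).1 ≠ hlt M := by
        rcases macro_step M q n with ⟨j, h1, h2⟩ | ⟨c, ⟨j, h1, h2⟩, h3, h4⟩
        · refine ⟨j + 1, by omega, by rw [Function.iterate_succ_apply, h1], fun i hi => ?_⟩
          cases i with
          | zero => exact h0
          | succ i =>
            rw [Function.iterate_succ_apply]
            exact h2 i (by omega)
        · refine ⟨1 + j, by omega, by
            rw [Function.iterate_add_apply, h1, Function.iterate_one, h4], fun i hi => ?_⟩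
          by_cases hij : i < j
          · exact h2 i hij
          · have : i = j := by omega
            subst this
            rw [h1]
            exact h3
      have hjk : j ≤ k := by
        by_contra hc
        exact h2 k (by omega) h
      obtain ⟨l, rfl⟩ : ∃ l, k = l + j := ⟨k - j, by omega⟩
      rw [Function.iterate_add_apply, h1] at h
      exact .step q n (ih l (by omega) _ _ h)

/-! ### the system of rules -/

/-- symbols -/
abbrev Sy (Q : Type) (B : ℕ) : Type := St Q B ⊕ Gm

/-- indices of the rules; the halted state has its rules twice -/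
abbrev Ix (Q : Type) (B : ℕ) : Type := Gm ⊕ (St Q B × Gm) ⊕ Gm

/-- left-hand sides -/
def lu : Ix Q M.B → List (Sy Q M.B)
  | .inl x => [.inr x]
  | .inr (.inl (s, x)) => [.inl s, .inr x]
  | .inr (.inr x) => [.inl (hlt M), .inr x]

/-- right-hand sides -/
def lv : Ix Q M.B → List (Sy Q M.B)
  | .inl x => [.inr x]
  | .inr (.inl (s, x)) => (dl M s x).1.map .inr ++ [.inl (dl M s x).2]
  | .inr (.inr x) => [.inr x, .inl (hlt M)]

/-- the word for a configuration -/
def wd (c : St Q M.B × List Gm) : List (Sy Q M.B) := .inl c.1 :: c.2.map .inr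

variable {M}

theorem map_inr_cons {s : St Q M.B} {t2 t1 : List Gm} {y : Sy Q M.B} {w : List (Sy Q M.B)}
    (h : y :: w = t2.map Sum.inr ++ Sum.inl s :: t1.map Sum.inr) :
    (∃ x t, t2 = x :: t ∧ y = .inr x ∧ w = t.map Sum.inr ++ Sum.inl s :: t1.map Sum.inr) ∨
    (t2 = [] ∧ y = .inl s ∧ w = t1.map Sum.inr) := by
  cases t2 with
  | nil =>
    simp only [List.map_nil, List.nil_append, List.cons.injEq] at h
    exact Or.inr ⟨rfl, h.1, h.2⟩
  | cons x t =>
    simp only [List.map_cons, List.cons_append, List.cons.injEq] at h
    exact Or.inl ⟨x, t, rfl, h.1, h.2⟩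

theorem reach_inv {c0 : St Q M.B × List Gm} {w : List (Sy Q M.B)}
    (h : Reach (lu M) (lv M) (wd M c0) w) : ∃ k s t1 t2,
      w = t2.map Sum.inr ++ Sum.inl s :: t1.map Sum.inr ∧
      (qstep M)^[k] c0 = (s, t1 ++ t2) := by
  induction h with
  | start => exact ⟨0, c0.1, c0.2, [], rfl, by simp⟩
  | step i w _ ih =>
    obtain ⟨k, s, t1, t2, h1, h2⟩ := ih
    rcases i with x | ⟨s', x⟩ | x
    · simp only [lu, List.cons_append, List.nil_append] at h1
      rcases map_inr_cons h1 with ⟨y, t, rfl, e1, rfl⟩ | ⟨-, e1, -⟩
      · obtain rfl := Sum.inr_injective e1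
        refine ⟨k, s, t1 ++ [x], t, ?_, by rw [h2]; simp⟩
        simp [lv]
      · exact absurd e1 (by simp)
    · simp only [lu, List.cons_append, List.nil_append] at h1
      rcases map_inr_cons h1 with ⟨y, t, rfl, e1, -⟩ | ⟨rfl, e1, e2⟩
      · exact absurd e1 (by simp)
      · obtain rfl := Sum.inl_injective e1
        cases t1 with
        | nil => simp at e2
        | cons y t1 =>
          simp only [List.map_cons, List.cons.injEq] at e2
          obtain ⟨e3, rfl⟩ := e2
          obtain rfl := Sum.inr_injective e3
          refine ⟨k + 1, (dl M s' x).2, [], t1 ++ (dl M s' x).1, ?_, ?_⟩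
          · simp [lv]
          · rw [Function.iterate_succ_apply', h2]
            simp [qstep]
    · simp only [lu, List.cons_append, List.nil_append] at h1
      rcases map_inr_cons h1 with ⟨y, t, rfl, e1, -⟩ | ⟨rfl, e1, e2⟩
      · exact absurd e1 (by simp)
      · obtain rfl := Sum.inl_injective e1
        cases t1 with
        | nil => simp at e2
        | cons y t1 =>
          simp only [List.map_cons, List.cons.injEq] at e2
          obtain ⟨e3, rfl⟩ := e2
          obtain rfl := Sum.inr_injective e3
          refine ⟨k + 1, hlt M, [], t1 ++ [x], ?_, ?_⟩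
          · simp [lv]
          · rw [Function.iterate_succ_apply', h2]
            simp [qstep, dl]

theorem rotate {c0 : St Q M.B × List Gm} (t2 : List Gm) : ∀ w : List (Sy Q M.B),
    Reach (lu M) (lv M) (wd M c0) (t2.map Sum.inr ++ w) →
    Reach (lu M) (lv M) (wd M c0) (w ++ t2.map Sum.inr) := by
  induction t2 with
  | nil => intro w h; simpa using h
  | cons x t2 ih =>
    intro w h
    have h1 : Reach (lu M) (lv M) (wd M c0) (lu M (.inl x) ++ (t2.map Sum.inr ++ w)) := by
      simpa [lu] using h
    have h2 := Reach.step _ _ h1
    have h3 : Reach (lu M) (lv M) (wd M c0) (t2.map Sum.inr ++ (w ++ [.inr x])) := by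
      simpa [lv] using h2
    have h4 := ih _ h3
    simpa using h4

theorem reach_cfg {c0 : St Q M.B × List Gm} (k : ℕ) :
    Reach (lu M) (lv M) (wd M c0) (wd M ((qstep M)^[k] c0)) := by
  induction k with
  | zero => exact .start
  | succ k ih =>
    rw [Function.iterate_succ_apply']
    rcases hc : (qstep M)^[k] c0 with ⟨s, t⟩
    rw [hc] at ih
    cases t with
    | nil => exact ih
    | cons x t =>
      have h1 : Reach (lu M) (lv M) (wd M c0) (lu M (.inr (.inl (s, x))) ++ t.map Sum.inr) := by
        simpa [lu, wd] using ih
      have h2 := Reach.step _ _ h1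
      have h3 : Reach (lu M) (lv M) (wd M c0) ((t ++ (dl M s x).1).map Sum.inr ++
          [.inl (dl M s x).2]) := by
        simpa [lv] using h2
      have h4 := rotate _ _ h3
      simpa [wd, qstep] using h4

theorem tape_inv {c0 : St Q M.B × List Gm} (h0 : Gm.m ∈ c0.2 ∧ Gm.z ∈ c0.2) (k : ℕ) :
    Gm.m ∈ ((qstep M)^[k] c0).2 ∧ Gm.z ∈ ((qstep M)^[k] c0).2 := by
  induction k with
  | zero => exact h0
  | succ k ih =>
    rw [Function.iterate_succ_apply']
    rcases hc : (qstep M)^[k] c0 with ⟨s, t⟩
    rw [hc] at ih
    cases t with
    | nil => exact ih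
    | cons x t =>
      simp only [qstep, List.mem_append, List.mem_cons] at ih ⊢
      obtain ⟨h1, h2⟩ := ih
      constructor
      · rcases h1 with rfl | h1
        · right
          rcases s with ⟨q, r⟩ | ⟨q, r, k⟩ | ⟨⟩ <;> simp [dl]
        · exact Or.inl h1
      · rcases h2 with rfl | h2
        · right
          rcases s with ⟨q, r⟩ | ⟨q, r, k⟩ | ⟨⟩ <;> simp [dl]
        · exact Or.inl h2

theorem length_ge {c0 : St Q M.B × List Gm} (h0 : Gm.m ∈ c0.2 ∧ Gm.z ∈ c0.2)
    {w : List (Sy Q M.B)} (h : Reach (lu M) (lv M) (wd M c0) w) : 2 ≤ w.length := by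
  obtain ⟨k, s, t1, t2, rfl, h2⟩ := reach_inv h
  have h3 := (tape_inv h0 k).1
  rw [h2] at h3
  have h4 : 0 < (t1 ++ t2).length := List.length_pos_of_mem h3
  simp only [List.length_append, List.length_map, List.length_cons] at h4 ⊢
  omega

/-- The rules are deterministic on the reachable words if and only if the automaton does not reach
the halted state. -/
theorem det_iff {c0 : St Q M.B × List Gm} (h0 : Gm.m ∈ c0.2 ∧ Gm.z ∈ c0.2) :
    (∀ w, Reach (lu M) (lv M) (wd M c0) w → ∀ i j, lu M i <+: w → lu M j <+: w → i = j) ↔
      ∀ k, ((qstep M)^[k] c0).1 ≠ hlt M := by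
  constructor
  · intro H k hk
    have h1 := reach_cfg (c0 := c0) k
    have h2 := (tape_inv h0 k).1
    rcases hc : (qstep M)^[k] c0 with ⟨s, t⟩
    rw [hc] at h1 h2 hk
    simp only at hk h2
    subst hk
    cases t with
    | nil => simp at h2
    | cons x t =>
      have := H _ h1 (.inr (.inl (hlt M, x))) (.inr (.inr x))
        ⟨t.map Sum.inr, by simp [lu, wd]⟩ ⟨t.map Sum.inr, by simp [lu, wd]⟩
      simp at this
  · rintro H w hw i j ⟨wi, hi⟩ ⟨wj, hj⟩
    obtain ⟨k, s, t1, t2, rfl, h2⟩ := reach_inv hw
    have hs : s ≠ hlt M := by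
      have := H k
      rwa [h2] at this
    have key : ∀ (i : Ix Q M.B) (wi : List (Sy Q M.B)),
        lu M i ++ wi = t2.map Sum.inr ++ Sum.inl s :: t1.map Sum.inr →
        (∃ x t, t2 = x :: t ∧ i = .inl x) ∨
        (t2 = [] ∧ ∃ x t, t1 = x :: t ∧ i = .inr (.inl (s, x))) := by
      intro i wi hi
      rcases i with x | ⟨s', x⟩ | x
      · simp only [lu, List.cons_append, List.nil_append] at hi
        rcases map_inr_cons hi with ⟨y, t, rfl, e1, -⟩ | ⟨-, e1, -⟩
        · obtain rfl := Sum.inr_injective e1
          exact Or.inl ⟨x, t, rfl, rfl⟩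
        · exact absurd e1 (by simp)
      · simp only [lu, List.cons_append, List.nil_append] at hi
        rcases map_inr_cons hi with ⟨y, t, rfl, e1, -⟩ | ⟨rfl, e1, e2⟩
        · exact absurd e1 (by simp)
        · obtain rfl := Sum.inl_injective e1
          cases t1 with
          | nil => simp at e2
          | cons y t1 =>
            simp only [List.map_cons, List.cons.injEq] at e2
            obtain rfl := Sum.inr_injective e2.1
            exact Or.inr ⟨rfl, x, t1, rfl, rfl⟩
      · simp only [lu, List.cons_append, List.nil_append] at hi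
        rcases map_inr_cons hi with ⟨y, t, rfl, e1, -⟩ | ⟨rfl, e1, -⟩
        · exact absurd e1 (by simp)
        · exact absurd (Sum.inl_injective e1).symm hs
    rcases key i wi hi with ⟨x, t, e1, rfl⟩ | ⟨e0, x, t, e1, rfl⟩ <;>
      rcases key j wj hj with ⟨y, t', e2, rfl⟩ | ⟨e0', y, t', e2, rfl⟩
    · rw [e1] at e2
      simp only [List.cons.injEq] at e2
      rw [e2.1]
    · rw [e1] at e0'
      simp at e0'
    · rw [e0] at e2
      simp at e2
    · rw [e1] at e2
      simp only [List.cons.injEq] at e2
      rw [e2.1]

/-- the instances for the counter machine -/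
theorem exists_instances : ∃ K : List (List ℕ × List ℕ), ∃ g0 : List ℕ,
    ∀ W : ℕ → Prop, REPred W → ∃ f : ℕ → List ℕ, Computable f ∧
      ∀ n, UEC ((f n, g0) :: K) ↔ ¬ W n := by
  classical
  obtain ⟨Q, hQ, M, q0, -, hM⟩ := Pool.Agent.Y669.TA.SysU.exists_sys_re
  have := gm_finite
  have : Finite (Sy Q M.B) := inferInstance
  have : Finite (Ix Q M.B) := inferInstance
  obtain ⟨e, he⟩ : ∃ e : Sy Q M.B → ℕ, Function.Injective e := exists_injective_nat _
  obtain ⟨N, ⟨σ⟩⟩ := Finite.exists_equiv_fin (Ix Q M.B)
  let K : List (List ℕ × List ℕ) := List.ofFn fun i : Fin N => (hE e (lv M (σ.symm i)), gE e (lu M (σ.symm i)))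
  refine ⟨K, [1, 0], fun W hW => ?_⟩
  obtain ⟨F, hF, hW'⟩ := hM W hW
  let c0 : ℕ → St Q M.B × List Gm := fun n => cfg M (some q0) (ini (F n))
  refine ⟨fun n => 1 :: hE e (wd M (c0 n)), ?_, fun n => ?_⟩
  · -- computability of the instance
    have h1 : ∀ n, 1 :: hE e (wd M (c0 n)) = (1 :: hE e [.inl (.inl (q0, fun _ => md M 0)), .inr .m]) ++
        ((List.range (F n)).flatMap (fun _ => [0, e (.inr (.c true)) + 2]) ++
          hE e [.inr .z]) := by
      intro n
      have h2 : ∀ (x : Sy Q M.B) (k : ℕ), hE e (List.replicate k x) =
          (List.range k).flatMap (fun _ => [0, e x + 2]) := by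
        intro x k
        induction k with
        | zero => rfl
        | succ k ih =>
          rw [List.replicate_succ', hE_append, ih, List.range_succ, List.flatMap_append]
          simp [hE]
      have h3 : wd M (c0 n) = [.inl (.inl (q0, fun _ => md M 0)), .inr .m] ++
          (List.replicate (F n) (.inr (.c true)) ++ [.inr .z]) := by
        simp [c0, wd, cfg, tape, ini]
      rw [h3, hE_append, hE_append, h2]
      rfl
    have h4 : Primrec (fun k : ℕ => (1 :: hE e [.inl (.inl (q0, fun _ => md M 0)), .inr .m]) ++
        ((List.range k).flatMap (fun _ => [0, e (.inr (.c true)) + 2]) ++ hE e [.inr .z])) := by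
      refine Primrec.list_append.comp (Primrec.const _) (Primrec.list_append.comp ?_
        (Primrec.const _))
      exact Primrec.list_flatMap Primrec.list_range (Primrec.const _).to₂
    exact (h4.to_comp.comp hF).of_eq fun n => (h1 n).symm
  · have hm : Gm.m ∈ (c0 n).2 ∧ Gm.z ∈ (c0 n).2 := by
      constructor <;> simp [c0, cfg, tape]
    have hu0 : ∀ i, lu M i ≠ [] := by
      rintro (x | ⟨s, x⟩ | x) <;> simp [lu]
    have hu2 : ∀ i, (lu M i).length ≤ 2 := by
      rintro (x | ⟨s, x⟩ | x) <;> simp [lu]
    have hv : ∀ i, lv M i ≠ [] := by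
      rintro (x | ⟨s, x⟩ | x) <;> simp [lv]
    have h1 := uec_cons σ.symm (hh e (lv M) (wd M (c0 n))) (gg e (lu M))
    have h2 : UEC ((1 :: hE e (wd M (c0 n)), [1, 0]) :: K) ↔
        UECg (hh e (lv M) (wd M (c0 n))) (gg e (lu M)) := h1
    rw [h2, uecg_iff he hu0 hu2 hv (fun w hw => length_ge hm hw), det_iff hm, ← hW' n]
    constructor
    · intro H hh
      obtain ⟨k, hk⟩ := halts_reaches M hh
      exact H k hk
    · intro H k hk
      exact H (reaches_halts M k _ _ hk)

end Pool.Agent.X238.Uec
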